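import Mathlib
import Pool.Agent.V11117.IMV1

/-!
# MP_9aac7e_co: IMV colourings of S(K_n) when rho(n) <= 3
-/

namespace Pool.Agent.Results.MP_9aac7e_co.SmallRho

open SimpleGraph Pool.Agent.V11117.IMV

/-- The subdivision `S(G)`: vertices of `G` and one vertex for each edge of `G`. -/
def subdiv {V : Type} (G : SimpleGraph V) : SimpleGraph (V ⊕ G.edgeSet) where
  Adj x y := match x, y with
    | Sum.inl u, Sum.inr e => u ∈ e.1
    | Sum.inr e, Sum.inl u => u ∈ e.1
    | Sum.inl _, Sum.inl _ => False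
    | Sum.inr _, Sum.inr _ => False
  symm := ⟨by
    intro x y h
    rcases x with x | x <;> rcases y with y | y <;> exact h⟩
  loopless := ⟨by
    intro x h
    rcases x with x | x <;> exact h⟩

/-- `x` and `y` are `X`-visible: some geodesic has no internal vertex in `X`. -/
def Visible {W : Type} (H : SimpleGraph W) (X : Set W) (x y : W) : Prop :=
  ∃ p : H.Walk x y, p.length = H.dist x y ∧ ∀ z ∈ p.support, z ≠ x → z ≠ y → z ∉ X

/-- independent mutual-visibility set -/
def IsIMV {W : Type} (H : SimpleGraph W) (X : Set W) : Prop :=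
  (∀ x ∈ X, ∀ y ∈ X, ¬ H.Adj x y) ∧ ∀ x ∈ X, ∀ y ∈ X, x ≠ y → Visible H X x y

/-- IMV `k`-colouring -/
def IMVColorable {W : Type} (H : SimpleGraph W) (k : ℕ) : Prop :=
  ∃ c : W → Fin k, ∀ i, IsIMV H {x | c x = i}

/-- `rho n`: the least number of parts of a K4-free partition of the complete graph. -/
noncomputable def rho (n : ℕ) : ℕ := sInf {r | ∃ f, K4FreePartition n r f}

theorem walk4 {V : Type} {G : SimpleGraph V} (e e' : G.edgeSet)
    (hd : ∀ u, u ∈ e.1 → u ∉ e'.1)
    (p : (subdiv G).Walk (Sum.inr e) (Sum.inr e')) (hp : p.length ≤ 4) :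
    ∃ (u v : V) (e2 : G.edgeSet), u ∈ e.1 ∧ v ∈ e'.1 ∧ u ∈ e2.1 ∧ v ∈ e2.1 ∧
      (Sum.inr e2 : V ⊕ G.edgeSet) ∈ p.support := by
  cases p with
  | nil =>
    exfalso
    obtain ⟨q, hq⟩ := e
    induction q using Sym2.ind with
    | _ a b => exact hd a (Sym2.mem_mk_left a b) (Sym2.mem_mk_left a b)
  | @cons _ w1 _ h1 p1 =>
    rcases w1 with u | w1
    · cases p1 with
      | @cons _ w2 _ h2 p2 =>
        rcases w2 with w2 | e2
        · exact h2.elim
        · cases p2 with
          | nil => exact absurd h2 (hd u h1)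
          | @cons _ w3 _ h3 p3 =>
            rcases w3 with v | w3
            · cases p3 with
              | @cons _ w4 _ h4 p4 =>
                rcases w4 with w4 | e4
                · exact h4.elim
                · cases p4 with
                  | nil =>
                    refine ⟨u, v, e2, h1, h4, h2, h3, ?_⟩
                    simp
                  | cons h5 p5 =>
                    exfalso
                    simp only [SimpleGraph.Walk.length_cons] at hp
                    omega
            · exact h3.elim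
    · exact h1.elim

/-- the edge of the complete graph -/
def ed {n : ℕ} (a b : Fin n) (h : a ≠ b) : (⊤ : SimpleGraph (Fin n)).edgeSet :=
  ⟨s(a, b), h⟩

theorem ed_comm {n : ℕ} (a b : Fin n) (h : a ≠ b) : ed a b h = ed b a h.symm :=
  Subtype.ext Sym2.eq_swap

theorem lower (n k : ℕ) (hn : 0 < n) (hk : k ≤ 3)
    (hc : IMVColorable (subdiv (⊤ : SimpleGraph (Fin n))) k) :
    0 < k ∧ ∃ f', K4FreePartition n (k - 1) f' := by
  obtain ⟨c, hc⟩ := hc
  let F : Fin n → Fin n → ℕ := fun a b => if h : a ≠ b then (c (Sum.inr (ed a b h))).val else 0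
  have hF : ∀ a b (h : a ≠ b), F a b = (c (Sum.inr (ed a b h))).val := by
    intro a b h
    simp only [F]
    rw [dif_pos h]
  have hFs : ∀ a b, F a b = F b a := by
    intro a b
    by_cases h : a = b
    · rw [h]
    · rw [hF a b h, hF b a (Ne.symm h), ed_comm]
  apply core n k hn hk F ⟨hFs, ?_, ?_⟩ (fun a => (c (Sum.inl a)).val) (fun a => (c _).2)
  · intro a b hab heq
    rw [hF a b hab] at heq
    have h1 : c (Sum.inr (ed a b hab)) = c (Sum.inl a) := Fin.ext heq
    have h2 := (hc (c (Sum.inl a))).1 (Sum.inl a) rfl (Sum.inr (ed a b hab)) h1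
    exact h2 (Sym2.mem_mk_left a b)
  · intro a b hab
    rw [hF a b hab]
    exact (c _).2
  · intro a b x y hab hax hay hbx hby hxy hmono
    obtain ⟨q1, q2, q3, q4, q5⟩ := hmono
    set i := c (Sum.inr (ed a b hab)) with hi
    have hFi : F a b = i.val := hF a b hab
    have hcol : ∀ u v (h : u ≠ v), F u v = i.val → c (Sum.inr (ed u v h)) = i := by
      intro u v h h1
      rw [hF u v h] at h1
      exact Fin.ext h1
    have hxyc : c (Sum.inr (ed x y hxy)) = i := hcol x y hxy (by rw [← hFi]; exact q5.symm)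
    have hdisj : ∀ u, u ∈ (ed a b hab).1 → u ∉ (ed x y hxy).1 := by
      intro u hu hu2
      rw [ed, Sym2.mem_iff] at hu hu2
      rcases hu with h | h <;> rcases hu2 with h' | h'
      · exact hax (h.symm.trans h')
      · exact hay (h.symm.trans h')
      · exact hbx (h.symm.trans h')
      · exact hby (h.symm.trans h')
    have hne : (Sum.inr (ed a b hab) : Fin n ⊕ (⊤ : SimpleGraph (Fin n)).edgeSet) ≠
        Sum.inr (ed x y hxy) := by
      intro h
      have h1 := Sum.inr_injective h
      have h2 : a ∈ (ed x y hxy).1 := by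
        rw [← h1]
        exact Sym2.mem_mk_left a b
      exact hdisj a (Sym2.mem_mk_left a b) h2
    obtain ⟨p, hp, hps⟩ := (hc i).2 _ hi.symm _ hxyc hne
    -- an explicit walk of length 4
    let S := subdiv (⊤ : SimpleGraph (Fin n))
    have a1 : S.Adj (Sum.inr (ed a b hab)) (Sum.inl a) := Sym2.mem_mk_left a b
    have a2 : S.Adj (Sum.inl a) (Sum.inr (ed a x hax)) := Sym2.mem_mk_left a x
    have a3 : S.Adj (Sum.inr (ed a x hax)) (Sum.inl x) := Sym2.mem_mk_right a x
    have a4 : S.Adj (Sum.inl x) (Sum.inr (ed x y hxy)) := Sym2.mem_mk_left x y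
    let w : S.Walk (Sum.inr (ed a b hab)) (Sum.inr (ed x y hxy)) :=
      SimpleGraph.Walk.cons a1 (SimpleGraph.Walk.cons a2 (SimpleGraph.Walk.cons a3
        (SimpleGraph.Walk.cons a4 SimpleGraph.Walk.nil)))
    have hw : S.dist (Sum.inr (ed a b hab)) (Sum.inr (ed x y hxy)) ≤ 4 :=
      SimpleGraph.dist_le w
    have hp4 : p.length ≤ 4 := by
      rw [hp]
      exact hw
    obtain ⟨u, v, e2, hu, hv, hu2, hv2, hsup⟩ := walk4 _ _ hdisj p hp4
    have hne1 : (Sum.inr e2 : Fin n ⊕ (⊤ : SimpleGraph (Fin n)).edgeSet) ≠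
        Sum.inr (ed a b hab) := by
      intro h
      rw [Sum.inr_injective h] at hv2
      exact hdisj v hv2 hv
    have hne2 : (Sum.inr e2 : Fin n ⊕ (⊤ : SimpleGraph (Fin n)).edgeSet) ≠
        Sum.inr (ed x y hxy) := by
      intro h
      rw [Sum.inr_injective h] at hu2
      exact hdisj u hu hu2
    apply hps _ hsup hne1 hne2
    have huv : u ≠ v := fun h => hdisj u hu (by rw [h]; exact hv)
    have he2 : e2 = ed u v huv := Subtype.ext ((Sym2.mem_and_mem_iff huv).1 ⟨hu2, hv2⟩)
    have hFuv : F u v = i.val := by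
      rw [ed, Sym2.mem_iff] at hu hv
      rcases hu with h | h <;> rcases hv with h' | h'
      · rw [h, h', ← hFi]; exact q1.symm
      · rw [h, h', ← hFi]; exact q2.symm
      · rw [h, h', ← hFi]; exact q3.symm
      · rw [h, h', ← hFi]; exact q4.symm
    rw [he2]
    exact hcol u v huv hFuv

/-- If `n ≥ 1` and `rho n ≤ 3`, every IMV colouring of `S(K_n)` uses at least `rho n + 1`
colours. -/
theorem result (n : ℕ) (hn : 0 < n) (h3 : rho n ≤ 3) (k : ℕ)
    (hk : IMVColorable (subdiv (⊤ : SimpleGraph (Fin n))) k) : rho n + 1 ≤ k := by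
  by_cases h : k ≤ 3
  · obtain ⟨h0, f', hf'⟩ := lower n k hn h hk
    have h1 : rho n ≤ k - 1 := Nat.sInf_le ⟨f', hf'⟩
    omega
  · omega

end Pool.Agent.Results.MP_9aac7e_co.SmallRho
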